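import Pool.Agent.EDX.Stmts2

/-!
# Squad EDX, row MDA (helper52): the relation modulo `2`
-/

set_option autoImplicit false

namespace Pool.Agent.EDX.H52

open Polynomial Finset Pool.Agent.EDG Module

theorem two_FF : (2 : FF) = 0 := by
  have := CharP.cast_eq_zero FF 2
  exact_mod_cast this

theorem F_mapFF : F.map (mapRingHom (Int.castRingHom FF)) = X ^ 2 := by
  have h2 : (2 : FF[X]) = 0 := by
    have : (2 : FF[X]) = C (2 : FF) := (map_ofNat C 2).symm
    rw [this, two_FF, C_0]
  unfold F
  simp [h2]

theorem h_mapFF (e : ℕ) : (h e).map (mapRingHom (Int.castRingHom FF)) = X ^ e := by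
  induction e using Nat.strong_induction_on with
  | _ e ih =>
    rcases Nat.even_or_odd' e with ⟨k, hk | hk⟩
    · rcases Nat.eq_zero_or_pos k with h0 | h0
      · subst h0; subst hk; simp [h_zero]
      · rw [hk, h_two_mul, map_comp, ih k (by omega), F_mapFF, X_pow_comp, ← pow_mul]
    · rw [hk, h_two_mul_add_one, Polynomial.map_mul, map_comp, ih k (by omega), F_mapFF, X_pow_comp,
        ← pow_mul, map_X, ← pow_succ']

theorem repr_h (r : ℕ) : ∀ q : ℤ[X][X], q.degree < (r : WithBot ℕ) →
    ∃ a : ℕ → ℤ[X], q = ∑ e ∈ range r, C (a e) * h e := by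
  induction r with
  | zero =>
    intro q hq
    have : q = 0 := by
      rw [← degree_eq_bot]
      exact Nat.WithBot.lt_zero_iff.mp (by exact_mod_cast hq)
    exact ⟨fun _ => 0, by simp [this]⟩
  | succ r ih =>
    intro q hq
    have h1 : (q - C (q.coeff r) * h r).degree < (r : WithBot ℕ) := by
      rw [degree_lt_iff_coeff_zero]
      intro m hm
      rcases eq_or_lt_of_le hm with hm' | hm'
      · subst hm'
        have := (h_monic r).coeff_natDegree
        rw [h_natDegree] at this
        rw [coeff_sub, coeff_C_mul, this, mul_one, sub_self]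
      · have h2 : q.coeff m = 0 := by
          apply coeff_eq_zero_of_degree_lt
          refine hq.trans_le ?_
          exact_mod_cast hm'
        have h3 : (h r).coeff m = 0 := by
          apply coeff_eq_zero_of_natDegree_lt
          rw [h_natDegree]; exact hm'
        rw [coeff_sub, coeff_C_mul, h2, h3, mul_zero, sub_zero]
    obtain ⟨a, ha⟩ := ih _ h1
    refine ⟨fun e => if e = r then q.coeff r else a e, ?_⟩
    rw [sum_range_succ]
    beta_reduce
    rw [if_pos rfl]
    have h4 : ∑ e ∈ range r, C (if e = r then q.coeff r else a e) * h e =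
        ∑ e ∈ range r, C (a e) * h e := by
      apply sum_congr rfl
      intro e he
      have : e ≠ r := (mem_range.mp he).ne
      rw [if_neg this]
    rw [h4, ← ha]
    ring

theorem mda : MdaStmt := by
  intro n g hg Φ P r hP j hj
  have hdeg : (Φ * h j).degree < (r : WithBot ℕ) := by
    refine lt_of_le_of_lt degree_le_natDegree ?_
    refine lt_of_le_of_lt (b := ((Φ.natDegree + j : ℕ) : WithBot ℕ)) ?_ (by exact_mod_cast hj)
    have := natDegree_mul_le (p := Φ) (q := h j)
    rw [h_natDegree] at this
    exact_mod_cast this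
  obtain ⟨a, ha⟩ := repr_h r _ hdeg
  -- the relation over `ℤ[X]`
  have hrel : ∑ e ∈ range r, a e * NP ℤ n g P e = 0 := by
    have h1 := hP ((Φ * h j).map iK) (by rw [Polynomial.map_mul]; exact dvd_mul_right _ _)
      (lt_of_le_of_lt (degree_map_le) hdeg)
    rw [ha, Polynomial.map_sum, map_sum] at h1
    apply iK_injective
    rw [map_zero, map_sum, ← h1]
    apply sum_congr rfl
    intro e _
    rw [Polynomial.map_mul, map_C, ← smul_eq_C_mul, map_smul, smul_eq_mul, map_mul]
    congr 1
    have h2 := mu_hK n g (fun x => ((P x : ℤ) : ℚ)) e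
    rw [hK] at h2
    rw [h2]
    have h3 := NP_map (Int.castRingHom ℚ) n g hg.monic P e
    have h4 : (fun x => ((P x : ℤ) : ℚ)) = fun x => (Int.castRingHom ℚ) (P x) := rfl
    rw [h4, ← h3, iQ_map]
  -- the coefficients modulo `2`
  have hmap : Φ.map (mapRingHom (Int.castRingHom FF)) * X ^ j =
      ∑ e ∈ range r, C ((a e).map (Int.castRingHom FF)) * X ^ e := by
    rw [← h_mapFF j, ← Polynomial.map_mul, ha, Polynomial.map_sum]
    apply sum_congr rfl
    intro e _
    rw [Polynomial.map_mul, map_C, h_mapFF]
    rfl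
  have hcoef : ∀ e ∈ range r, (Φ.map (mapRingHom (Int.castRingHom FF)) * X ^ j).coeff e =
      (a e).map (Int.castRingHom FF) := by
    intro e he
    rw [hmap, finsetSum_coeff]
    rw [sum_eq_single e]
    · rw [coeff_C_mul, coeff_X_pow, if_pos rfl, mul_one]
    · intro b _ hb
      rw [coeff_C_mul, coeff_X_pow, if_neg (Ne.symm hb), mul_zero]
    · intro h5; exact absurd he h5
  have h6 := congrArg (Polynomial.map (Int.castRingHom FF)) hrel
  rw [Polynomial.map_sum, Polynomial.map_zero] at h6
  rw [← h6]
  apply sum_congr rfl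
  intro e he
  rw [hcoef e he, Polynomial.map_mul, NP_map (Int.castRingHom FF) n g hg.monic P e]
  rfl

end Pool.Agent.EDX.H52
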